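import Pool.Agent.Helper85.CVX.Final

set_option autoImplicit false
open scoped Classical

namespace Pool.Agent.Results.MP_5d210b_co.ConvexPosition

/-- There are `c > 0` and `N` such that every set of `n ≥ N` points of the plane in convex position
(no point lies in the convex hull of the others) has at least `c n` distances each realised by at
least one and at most `n` unordered pairs of its points. -/
theorem result : ∃ c : ℝ, 0 < c ∧ ∃ N : ℕ, ∀ n : ℕ, N ≤ n →
    ∀ P : Finset (EuclideanSpace ℝ (Fin 2)), P.card = n →
      (∀ x ∈ P, x ∉ convexHull ℝ ((P : Set (EuclideanSpace ℝ (Fin 2))) \ {x})) →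
      c * n ≤ (((P.offDiag.image (fun x => dist x.1 x.2)).filter
        (fun d => (P.offDiag.filter (fun x => dist x.1 x.2 = d)).card ≤ 2 * n)).card : ℝ) :=
  Pool.Agent.Helper85.CVX.main

end Pool.Agent.Results.MP_5d210b_co.ConvexPosition
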