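import Pool.Agent.Helper77.CX.Fin

set_option autoImplicit false
open scoped Classical

namespace Pool.Agent.Results.MP_5d210b_co.ConvexSubsets

open Pool.Agent.Helper85.LowMult Pool.Agent.Helper77.CX

/-- Let `P` be a finite nonempty plane set with `n` points and `L` low-multiplicity distances.
Then `P` has a subset `C` in convex position with at least `n / (2 (L + 1) (L + 2))` points, all of
which have the same largest distance `e` to points of `P`, where at most `L` distances of `P` exceed `e`.
Also, `P` has a subset `C` in convex position with at least `sqrt (n / (2 (L + 1)))` points, all of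
which have the same largest distance `e` to points of `P`, where at most `2 L + 1` distances of `P`
exceed `e`. -/
theorem result (P : Finset (EuclideanSpace ℝ (Fin 2))) (hP : P.Nonempty) (L : ℕ)
    (hL : L = ((P.offDiag.image (fun x => dist x.1 x.2)).filter
      (fun d => (P.offDiag.filter (fun x => dist x.1 x.2 = d)).card ≤ 2 * P.card)).card) :
    (∃ C ⊆ P, (∀ x ∈ C, x ∉ convexHull ℝ ((C : Set (EuclideanSpace ℝ (Fin 2))) \ {x})) ∧
      (∃ e : ℝ, ((P.offDiag.image (fun x => dist x.1 x.2)).filter (fun d => e < d)).card ≤ L ∧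
        ∀ x ∈ C, (∃ y ∈ P, dist x y = e) ∧ ∀ y ∈ P, dist x y ≤ e) ∧
      P.card ≤ 2 * (L + 1) * (L + 2) * C.card) ∧
    (∃ C ⊆ P, (∀ x ∈ C, x ∉ convexHull ℝ ((C : Set (EuclideanSpace ℝ (Fin 2))) \ {x})) ∧
      (∃ e : ℝ, ((P.offDiag.image (fun x => dist x.1 x.2)).filter
          (fun d => e < d)).card ≤ 2 * L + 1 ∧
        ∀ x ∈ C, (∃ y ∈ P, dist x y = e) ∧ ∀ y ∈ P, dist x y ≤ e) ∧
      P.card ≤ 2 * (L + 1) * C.card ^ 2) := by
  have hL' : L = (low P).card := hL
  rw [hL']
  constructor
  · obtain ⟨e, h1, h2⟩ := exists_a hP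
    exact ⟨EC P e, Finset.filter_subset _ _, ec_convex P e,
      ⟨e, h1, fun x hx => (mem_EC.mp hx).2⟩, h2⟩
  · obtain ⟨e, h1, h2⟩ := exists_b hP
    exact ⟨EC P e, Finset.filter_subset _ _, ec_convex P e,
      ⟨e, h1, fun x hx => (mem_EC.mp hx).2⟩, h2⟩

end Pool.Agent.Results.MP_5d210b_co.ConvexSubsets
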