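import Pool.Agent.Helper85.GAP.Circle

set_option autoImplicit false
open scoped Classical

namespace Pool.Agent.Results.MP_5d210b_co.ProgressionSets

open Pool.Agent.Helper85.LowMult Pool.Agent.Helper85.GAP

/-- The conjecture (at least `n ^ (1 - ε)` low-multiplicity distances) holds for every `n`-point set
all but at most `n ^ (1 - ε)` points of which lie in a union of at most `n ^ (ε / 8)` generalised
arithmetic progressions of rank `r` with coefficients at most `n ^ C`. -/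
theorem result (r : ℕ) (C ε : ℝ) (hε : 0 < ε) (hε1 : ε ≤ 1) :
    ∃ N : ℕ, ∀ n : ℕ, N ≤ n → ∀ P : Finset (EuclideanSpace ℝ (Fin 2)), P.card = n →
      ∀ (m : ℕ) (b : Fin m → EuclideanSpace ℝ (Fin 2))
        (a : Fin m → Fin r → EuclideanSpace ℝ (Fin 2)), (m : ℝ) ≤ (n : ℝ) ^ (ε / 8) →
        ((P.filter (fun p => ¬ ∃ j : Fin m, ∃ x : Fin r → ℤ,
            (∀ i, |(x i : ℝ)| ≤ (n : ℝ) ^ C) ∧ p = b j + ∑ i, (x i : ℝ) • a j i)).card : ℝ) ≤
          (n : ℝ) ^ (1 - ε) →
        (n : ℝ) ^ (1 - ε) ≤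
          (((P.offDiag.image (fun x => dist x.1 x.2)).filter
              (fun d => (P.offDiag.filter (fun x => dist x.1 x.2 = d)).card ≤ 2 * n)).card : ℝ) := by
  obtain ⟨N1, hN1⟩ := diff_count r (max C 0) (ε / 8) (le_max_right _ _) (by positivity)
  obtain ⟨N2, hN2⟩ := low_of_few_vectors ε hε hε1
  refine ⟨max (max N1 N2) 1, ?_⟩
  intro n hn P hP m b a hm hexc
  have hn1 : N1 ≤ n := ((le_max_left _ _).trans (le_max_left _ _)).trans hn
  have hn2 : N2 ≤ n := ((le_max_right _ _).trans (le_max_left _ _)).trans hn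
  have hn3 : 1 ≤ n := (le_max_right _ _).trans hn
  have hnR : (1 : ℝ) ≤ n := by exact_mod_cast hn3
  have hn0 : (0 : ℝ) < n := by linarith
  set P₀ : Finset (EuclideanSpace ℝ (Fin 2)) := P.filter (fun p => ∃ j : Fin m, ∃ x : Fin r → ℤ,
            (∀ i, |(x i : ℝ)| ≤ (n : ℝ) ^ C) ∧ p = b j + ∑ i, (x i : ℝ) • a j i) with hP₀
  have hsplit : P₀.card + (P.filter (fun p => ¬ ∃ j : Fin m, ∃ x : Fin r → ℤ,
            (∀ i, |(x i : ℝ)| ≤ (n : ℝ) ^ C) ∧ p = b j + ∑ i, (x i : ℝ) • a j i)).card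
      = P.card := Finset.card_filter_add_card_filter_not _
  have hmain := hN2 n hn2 P P₀ hP (Finset.filter_subset _ _) (by
    refine le_trans ?_ hexc
    have h1 : P.card - P₀.card = (P.filter (fun p => ¬ ∃ j : Fin m, ∃ x : Fin r → ℤ,
            (∀ i, |(x i : ℝ)| ≤ (n : ℝ) ^ C) ∧ p = b j + ∑ i, (x i : ℝ) • a j i)).card := by
      omega
    rw [h1]) (by
    intro d hd
    have h1 := hN1 n hn1 m b a P₀ (by
      intro p hp
      rw [hP₀, Finset.mem_filter] at hp
      obtain ⟨j, x, hx, hpx⟩ := hp.2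
      exact ⟨j, x, fun i => (hx i).trans
        (Real.rpow_le_rpow_of_exponent_le hnR (le_max_left _ _)), hpx⟩) d hd
    refine h1.trans ?_
    have e1 : (n : ℝ) ^ (3 * ε / 8) = ((n : ℝ) ^ (ε / 8)) ^ 2 * (n : ℝ) ^ (ε / 8) := by
      rw [sq, ← Real.rpow_add hn0, ← Real.rpow_add hn0]
      congr 1
      ring
    rw [e1]
    apply mul_le_mul_of_nonneg_right _ (by positivity)
    exact pow_le_pow_left₀ (Nat.cast_nonneg _) hm 2)
  refine hmain.trans_eq ?_
  unfold low
  rw [hP]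

end Pool.Agent.Results.MP_5d210b_co.ProgressionSets
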