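import Pool.Agent.Helper77.SD.Asym

set_option autoImplicit false
open scoped Classical Pointwise

namespace Pool.Agent.Results.MP_5d210b_co.SmallDoubling

open Pool.Agent.Helper85.LowMult Pool.Agent.Helper85.GAP Pool.Agent.Helper77.SD

private lemma log_bound {n : ℝ} (hn : 9 ≤ n) {y : ℝ} (hy : 0 < y) (hyn : y ≤ 9 * n ^ 9) :
    Real.logb 2 y + 1 ≤ 20 * Real.log n := by
  have hn0 : 0 < n := by linarith
  have h9 : Real.log 9 ≤ Real.log n := Real.log_le_log (by norm_num) hn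
  have hl2 : (1 / 2 : ℝ) ≤ Real.log 2 := by
    have := Real.log_two_gt_d9
    linarith
  have hl2' : Real.log 2 ≤ Real.log n := Real.log_le_log (by norm_num) (by linarith)
  have h1 : Real.log y ≤ 10 * Real.log n := by
    have h2 : Real.log y ≤ Real.log (9 * n ^ 9) := Real.log_le_log hy hyn
    rw [Real.log_mul (by norm_num) (by positivity), Real.log_pow] at h2
    push_cast at h2
    linarith
  have hln : 0 ≤ Real.log n := by linarith
  have h3 : Real.logb 2 y + 1 ≤ (10 * Real.log n) / Real.log 2 + Real.log 2 / Real.log 2 := by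
    unfold Real.logb
    rw [div_self (by linarith : Real.log 2 ≠ 0)]
    have : Real.log y / Real.log 2 ≤ (10 * Real.log n) / Real.log 2 :=
      div_le_div_of_nonneg_right h1 (by linarith)
    linarith
  have hln4 : 3 * Real.log 2 ≤ Real.log n := by
    have e : 3 * Real.log 2 = Real.log (2 ^ 3) := by
      rw [Real.log_pow]
      push_cast
      ring
    rw [e]
    exact Real.log_le_log (by norm_num) (by norm_num; linarith)
  have hl3 : (0.6 : ℝ) ≤ Real.log 2 := by
    have := Real.log_two_gt_d9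
    linarith
  refine h3.trans ?_
  rw [← add_div, div_le_iff₀ (by linarith)]
  nlinarith

/-- The conjecture (at least `n ^ (1 - ε)` low-multiplicity distances) holds for every `n`-point set
which has a subset `P₀`, missing at most `n ^ (1 - ε)` of its points, with at most
`n ^ (1 + ε / 120)` difference vectors. -/
theorem result (ε : ℝ) (hε : 0 < ε) (hε1 : ε ≤ 1) :
    ∃ N : ℕ, ∀ n : ℕ, N ≤ n → ∀ P : Finset (EuclideanSpace ℝ (Fin 2)), P.card = n →
      ∀ P₀ : Finset (EuclideanSpace ℝ (Fin 2)), P₀ ⊆ P →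
        ((P \ P₀).card : ℝ) ≤ (n : ℝ) ^ (1 - ε) →
        (((P₀ ×ˢ P₀).image (fun x => x.1 - x.2)).card : ℝ) ≤ (n : ℝ) ^ (1 + ε / 120) →
        (n : ℝ) ^ (1 - ε) ≤
          (((P.offDiag.image (fun x => dist x.1 x.2)).filter
              (fun d => (P.offDiag.filter (fun x => dist x.1 x.2 = d)).card ≤ 2 * n)).card : ℝ) := by
  -- the constant
  set c1 : ℝ := (380000000 * (97280 * 20) ^ 7 * 20) ^ 2 * 6 with hc1
  have hc1pos : 0 < c1 := by positivity
  have hlog := isLittleO_log_rpow_rpow_atTop (16 : ℝ) (show (0 : ℝ) < ε / 15 by positivity)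
  have hev : ∀ᶠ x : ℝ in Filter.atTop, c1 * Real.log x ^ 16 ≤ x ^ (ε / 15) ∧ 9 ≤ x := by
    have h1 := hlog.bound (show (0 : ℝ) < 1 / c1 by positivity)
    filter_upwards [h1, Filter.eventually_ge_atTop (9 : ℝ)] with x hx hx9
    refine ⟨?_, hx9⟩
    have hx0 : 0 < x := by linarith
    have hlx : 0 ≤ Real.log x := Real.log_nonneg (by linarith)
    rw [Real.norm_of_nonneg (Real.rpow_nonneg hlx _), Real.norm_of_nonneg (Real.rpow_nonneg hx0.le _)] at hx
    have e : Real.log x ^ (16 : ℝ) = Real.log x ^ 16 := by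
      rw [← Real.rpow_natCast]
      norm_num
    rw [e] at hx
    calc c1 * Real.log x ^ 16 ≤ c1 * (1 / c1 * x ^ (ε / 15)) := mul_le_mul_of_nonneg_left hx hc1pos.le
      _ = x ^ (ε / 15) := by field_simp
  obtain ⟨N, hN⟩ := Filter.eventually_atTop.1 (tendsto_natCast_atTop_atTop.eventually hev)
  refine ⟨N, ?_⟩
  intro n hn P hP P₀ hP₀ hexc hdiff
  obtain ⟨hlogn, hn9⟩ := hN n hn
  set x : ℝ := (n : ℝ) with hx
  have hx0 : 0 < x := by linarith
  have hx1 : 1 ≤ x := by linarith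
  set ℓ : ℝ := Real.log x with hℓ
  have hℓ1 : 1 ≤ ℓ := by
    rw [hℓ, Real.le_log_iff_exp_le hx0]
    have := Real.exp_one_lt_d9
    linarith
  set δ : ℝ := ε / 120 with hδ
  have hδ0 : 0 < δ := by positivity
  set y : ℝ := x ^ δ with hy
  have hy1 : 1 ≤ y := Real.one_le_rpow hx1 hδ0.le
  have hy0 : 0 < y := by linarith
  set L : ℝ := 20 * ℓ with hL
  set X : ℝ := 97280 * y ^ 8 * L with hX
  set R : ℝ := 380000000 * X ^ 7 * L with hR
  have hL1 : 1 ≤ L := by rw [hL]; linarith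
  have hy8 : 1 ≤ y ^ 8 := one_le_pow₀ hy1
  have hX1 : 1 ≤ X := by
    rw [hX]
    nlinarith
  have hR1 : 1 ≤ R := by
    rw [hR]
    have : 1 ≤ X ^ 7 := one_le_pow₀ hX1
    nlinarith
  -- the size of `R`
  have hR2 : 6 * R ^ 2 ≤ x ^ ε := by
    have e1 : 6 * R ^ 2 = c1 * ℓ ^ 16 * y ^ 112 := by
      rw [hR, hX, hL, hc1]
      ring
    have e2 : y ^ 112 = x ^ (112 * δ) := by
      rw [hy, ← Real.rpow_natCast, ← Real.rpow_mul hx0.le]
      congr 1
      push_cast
      ring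
    have e3 : x ^ ε = x ^ (ε / 15) * x ^ (112 * δ) := by
      rw [← Real.rpow_add hx0]
      congr 1
      rw [hδ]
      ring
    rw [e1, e2, e3]
    exact mul_le_mul_of_nonneg_right hlogn (Real.rpow_nonneg hx0.le _)
  have hxε : x ^ ε ≤ x := by
    calc x ^ ε ≤ x ^ (1 : ℝ) := Real.rpow_le_rpow_of_exponent_le hx1 hε1
      _ = x := Real.rpow_one x
  have hR6 : 6 ≤ x ^ ε := by
    have : 1 ≤ R ^ 2 := one_le_pow₀ hR1
    linarith
  have hRx : 2 * R ≤ x := by
    have h1 : 6 * R ^ 2 ≤ x := hR2.trans hxε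
    nlinarith [sq_nonneg (R - 1)]
  have hsplit : x ^ (1 - ε) * x ^ ε = x := by
    rw [← Real.rpow_add hx0]
    have : (1 - ε + ε) = 1 := by ring
    rw [this, Real.rpow_one]
  have hx1ε : 0 < x ^ (1 - ε) := Real.rpow_pos_of_pos hx0 _
  -- the size of `P₀`
  have hcard : ((P \ P₀).card : ℝ) = x - P₀.card := by
    rw [Finset.card_sdiff_of_subset hP₀, Nat.cast_sub (Finset.card_le_card hP₀), hP]
  have hq : x ≤ 2 * (P₀.card : ℝ) := by
    rw [hcard] at hexc
    nlinarith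
  have hP₀pos : (0 : ℝ) < P₀.card := by linarith
  have hne : P₀.Nonempty := by
    rw [← Finset.card_pos]
    exact_mod_cast hP₀pos
  have hP₀n : (P₀.card : ℝ) ≤ x := by
    rw [hx, ← hP]
    exact_mod_cast Finset.card_le_card hP₀
  -- the doubling constant
  have hdiff' : (((P₀ - P₀).card : ℕ) : ℝ) ≤ x * y := by
    have e : (((P₀ - P₀).card : ℕ) : ℝ) = (((P₀ ×ˢ P₀).image (fun x => x.1 - x.2)).card : ℝ) := rfl
    rw [e]
    refine hdiff.trans (le_of_eq ?_)
    rw [Real.rpow_add hx0, Real.rpow_one]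
  have hdbl : dbl P₀ ≤ 2 * y := by
    unfold dbl
    rw [div_le_iff₀ hP₀pos]
    refine hdiff'.trans ?_
    nlinarith
  have hdbl0 : 0 ≤ dbl P₀ := le_trans zero_le_one (one_le_dbl hne)
  have hLg : ∀ t, 0 < t → t ≤ 9 * x ^ 9 → Real.logb 2 t + 1 ≤ L := fun t ht htn =>
    log_bound hn9 ht htn
  have hE : ((circ (P₀ - P₀)).card : ℝ) ≤ X * x := by
    have h1 := circ_diff_zero hne
    have h2 : 0 < 9 * (dbl P₀ ^ 8 * (P₀.card : ℝ)) := by
      have : 0 < dbl P₀ := lt_of_lt_of_le zero_lt_one (one_le_dbl hne)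
      positivity
    have h3 := hLg _ h2 (by
      have := dbl_pow_le hne hP₀n
      linarith)
    have h4 : dbl P₀ ^ 8 ≤ (2 * y) ^ 8 := pow_le_pow_left₀ hdbl0 hdbl 8
    calc ((circ (P₀ - P₀)).card : ℝ) ≤ 380 * (dbl P₀ ^ 8 * P₀.card) *
          (Real.logb 2 (9 * (dbl P₀ ^ 8 * P₀.card)) + 1) := h1
      _ ≤ 380 * (dbl P₀ ^ 8 * P₀.card) * L := by
          apply mul_le_mul_of_nonneg_left h3
          positivity
      _ ≤ 380 * ((2 * y) ^ 8 * x) * L := by gcongr
      _ = X * x := by rw [hX]; ring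
  have hmain := lw_ge P P₀ hP₀ x L X R (by rw [hP]) hL1 hX1 hLg hE hR hRx hq
  have hlow : Lw P P₀ = (((P.offDiag.image (fun x => dist x.1 x.2)).filter
      (fun d => (P.offDiag.filter (fun x => dist x.1 x.2 = d)).card ≤ 2 * n)).card : ℝ) +
        2 * ((P \ P₀).card : ℝ) := by
    unfold Lw low
    rw [hcard, hP]
  rw [hlow] at hmain
  have hbig : 3 * x ^ (1 - ε) ≤ x / (2 * R ^ 2) := by
    rw [le_div_iff₀ (by positivity)]
    calc 3 * x ^ (1 - ε) * (2 * R ^ 2) = x ^ (1 - ε) * (6 * R ^ 2) := by ring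
      _ ≤ x ^ (1 - ε) * x ^ ε := mul_le_mul_of_nonneg_left hR2 hx1ε.le
      _ = x := hsplit
  linarith

end Pool.Agent.Results.MP_5d210b_co.SmallDoubling
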